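import Mathlib
import Pool.Agent.Y214.HB.Stm

/-!
# From weak approximation and tests to points outside the cover (job HB-FIX, project HB)
-/

set_option autoImplicit false

namespace Pool.Agent.Y67.HB

open Polynomial Pool.Agent.Y214.HB

theorem aeval_scale {n d : ℕ} {f : MvPolynomial (Fin (n + 1)) ℤ} (hf : f.IsHomogeneous d)
    (c : ℚ) (x : Fin (n + 1) → ℚ) :
    MvPolynomial.aeval (fun j => c * x j) f = c ^ d * MvPolynomial.aeval x f := by
  rw [MvPolynomial.aeval_def, MvPolynomial.aeval_def, MvPolynomial.eval₂_eq',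
    MvPolynomial.eval₂_eq', Finset.mul_sum]
  refine Finset.sum_congr rfl fun u hu => ?_
  have h1 : ∑ i, u i = d := by
    by_contra hne
    refine (MvPolynomial.mem_support_iff.1 hu) (hf.coeff_eq_zero ?_)
    rw [Finsupp.degree_eq_sum]
    exact hne
  have h3 : ∏ i, (c * x i) ^ u i = c ^ d * ∏ i, x i ^ u i := by
    rw [← h1, ← Finset.prod_pow_eq_pow_sum, ← Finset.prod_mul_distrib]
    exact Finset.prod_congr rfl fun i _ => mul_pow _ _ _
  rw [h3]
  ring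

/-- the conditions on the new local point -/
def Cd {n k : ℕ} (f : MvPolynomial (Fin (n + 1)) ℤ) (l : Fin k → ℕ) (a : Fin k → Fin (n + 1) → ℤ)
    (p : ℕ) [Fact p.Prime] (v : Fin (n + 1) → ℚ_[p]) : Prop :=
  v ≠ 0 ∧ MvPolynomial.aeval v f = 0 ∧ ‖v‖ ≤ 1 ∧
    ∀ i, l i = p → ∀ j, ‖v j - (a i j : ℚ_[p])‖ < 1

theorem three {p : ℕ} [Fact p.Prime] {u v w : ℚ_[p]} (hu : ‖u‖ < 1) (hv : ‖v‖ < 1)
    (hw : ‖w‖ < 1) : ‖u + v + w‖ < 1 := by
  refine lt_of_le_of_lt (IsUltrametricDist.norm_add_le_max _ _) (max_lt ?_ hw)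
  exact lt_of_le_of_lt (IsUltrametricDist.norm_add_le_max _ _) (max_lt hu hv)

theorem t_FIX (h1 : S_LOC) (h2 : S_HEN) (h3 : S_SCL) : S_FIX := by
  classical
  intro n d m M f P hd hm hmM hM hf hWA hT z y hz hy hyf
  obtain ⟨k, Q, c, l, a, hcP, hinj, hl⟩ := hT
  have hFact : ∀ i, Fact (l i).Prime := fun i => ⟨(hl i).1⟩
  have hmR : (0 : ℝ) < m := by exact_mod_cast hm
  have hMR : (2 : ℝ) ≤ M := by exact_mod_cast hM
  have hmMR : (m : ℝ) ≤ M := by exact_mod_cast hmM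
  -- the new local points
  let z' : ∀ (p : ℕ) [Fact p.Prime], Fin (n + 1) → ℚ_[p] := fun p _ =>
    if h : (∃ i, l i = p) ∧ ∃ v : Fin (n + 1) → ℚ_[p], Cd f l a p v then h.2.choose else z p
  have hz'1 : ∀ (p : ℕ) [Fact p.Prime], (¬ ∃ i, l i = p) → z' p = z p := by
    intro p _ h
    exact dif_neg fun h' => h h'.1
  have hz'2 : ∀ i, Cd f l a (l i) (z' (l i)) := by
    intro i
    have hex : (∃ j, l j = l i) ∧ ∃ v : Fin (n + 1) → ℚ_[l i], Cd f l a (l i) v := by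
      refine ⟨⟨i, rfl⟩, ?_⟩
      obtain ⟨v, hv1, hv2, hv3, hv4⟩ := h2 n d f (l i) (a i) hd hf (hl i).2.2.2.2
      refine ⟨v, hv1, hv2, hv3, fun j hj s => ?_⟩
      rw [hinj hj]
      exact hv4 s
    have e : z' (l i) = hex.2.choose := dif_pos hex
    rw [e]
    exact hex.2.choose_spec
  have hz' : ∀ (p : ℕ) [Fact p.Prime], z' p ≠ 0 ∧ MvPolynomial.aeval (z' p) f = 0 := by
    intro p _
    by_cases h : (∃ i, l i = p) ∧ ∃ v : Fin (n + 1) → ℚ_[p], Cd f l a p v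
    · have e : z' p = h.2.choose := dif_pos h
      rw [e]
      exact ⟨h.2.choose_spec.1, h.2.choose_spec.2.1⟩
    · have e : z' p = z p := dif_neg h
      rw [e]
      exact hz p
  obtain ⟨x, hx0, hxf, hxp, cr, hcr0, hcr⟩ := hWA z' y hz' hy hyf
  let cp : ∀ (p : ℕ) [Fact p.Prime], ℚ_[p] := fun p _ =>
    if h : p ≤ M then (hxp p h).choose else 0
  have hcp : ∀ (p : ℕ) [Fact p.Prime], p ≤ M → cp p ≠ 0 ∧
      ∀ i, ‖z' p i - cp p * (x i : ℚ_[p])‖ ≤ ‖z' p‖ / M := by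
    intro p _ h
    have e : cp p = (hxp p h).choose := dif_pos h
    rw [e]
    exact (hxp p h).choose_spec
  -- the common scalar
  obtain ⟨B, hB⟩ : ∃ B : Fin k → ℝ, ∀ i, B i = ∑ j, ‖((x j : ℚ) : ℚ_[l i])‖ := ⟨_, fun _ => rfl⟩
  have hB0 : ∀ i, 0 ≤ B i := fun i => by
    rw [hB]
    exact Finset.sum_nonneg fun j _ => norm_nonneg _
  have hS0 : 0 ≤ ∑ i, B i := Finset.sum_nonneg fun i _ => hB0 i
  obtain ⟨c0, hc0, hc0p⟩ := h3 (Finset.univ.image l) cp (1 / (1 + ∑ i, B i)) (by positivity)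
  have hnear : ∀ i, ∀ j, ‖((c0 * x j : ℚ) : ℚ_[l i]) - (a i j : ℚ_[l i])‖ < 1 := by
    intro i j
    have e1 := hc0p (l i) (Finset.mem_image_of_mem l (Finset.mem_univ i))
    have e2 : ‖((x j : ℚ) : ℚ_[l i])‖ ≤ ∑ i, B i := by
      calc ‖((x j : ℚ) : ℚ_[l i])‖ ≤ B i := by
            rw [hB]
            exact Finset.single_le_sum (f := fun j => ‖((x j : ℚ) : ℚ_[l i])‖)
              (fun j _ => norm_nonneg _) (Finset.mem_univ j)
        _ ≤ ∑ i, B i := Finset.single_le_sum (fun i _ => hB0 i) (Finset.mem_univ i)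
    have e3 : ‖((c0 : ℚ_[l i]) - cp (l i)) * (x j : ℚ_[l i])‖ < 1 := by
      rw [norm_mul]
      calc ‖(c0 : ℚ_[l i]) - cp (l i)‖ * ‖(x j : ℚ_[l i])‖
          ≤ 1 / (1 + ∑ i, B i) * ∑ i, B i := mul_le_mul e1 e2 (norm_nonneg _) (by positivity)
        _ < 1 := by
            rw [div_mul_eq_mul_div, one_mul, div_lt_one (by positivity)]
            linarith
    have e4 : ‖cp (l i) * (x j : ℚ_[l i]) - z' (l i) j‖ < 1 := by
      rw [norm_sub_rev]
      refine lt_of_le_of_lt ((hcp (l i) (hl i).2.2.1).2 j) ?_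
      rw [div_lt_one (by linarith)]
      have := (hz'2 i).2.2.1
      linarith
    have e5 := (hz'2 i).2.2.2 i rfl j
    have e6 : ((c0 * x j : ℚ) : ℚ_[l i]) - (a i j : ℚ_[l i]) =
        ((c0 : ℚ_[l i]) - cp (l i)) * (x j : ℚ_[l i]) +
          (cp (l i) * (x j : ℚ_[l i]) - z' (l i) j) + (z' (l i) j - (a i j : ℚ_[l i])) := by
      push_cast
      ring
    rw [e6]
    exact three e3 e4 e5
  refine ⟨fun j => c0 * x j, ?_, ?_, ?_, ?_, ?_⟩
  · intro h
    apply hx0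
    funext j
    exact (mul_eq_zero.1 (congrFun h j)).resolve_left hc0
  · rw [aeval_scale hf, hxf, mul_zero]
  · intro p _ hp
    obtain ⟨e1, e2⟩ := hcp p (hp.trans hmM)
    have hc0' : (c0 : ℚ_[p]) ≠ 0 := by exact_mod_cast hc0
    have e3 : z' p = z p := hz'1 p fun ⟨i, hi⟩ => by
      have := (hl i).2.1
      omega
    refine ⟨cp p / c0, div_ne_zero e1 hc0', fun i => ?_⟩
    have e4 : cp p / (c0 : ℚ_[p]) * ((c0 * x i : ℚ) : ℚ_[p]) = cp p * (x i : ℚ_[p]) := by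
      push_cast
      field_simp
    rw [e4, ← e3]
    exact (e2 i).trans (div_le_div_of_nonneg_left (norm_nonneg _) hmR hmMR)
  · have hc0' : (c0 : ℝ) ≠ 0 := by exact_mod_cast hc0
    refine ⟨cr / c0, div_ne_zero hcr0 hc0', fun i => ?_⟩
    have e4 : cr / (c0 : ℝ) * ((c0 * x i : ℚ) : ℝ) = cr * (x i : ℝ) := by
      push_cast
      field_simp
    rw [e4]
    exact (hcr i).trans (div_le_div_of_nonneg_left (norm_nonneg _) hmR hmMR)
  · intro w hw
    have e : ((C c * P).map (evQ fun j => c0 * x j)).eval w = 0 := by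
      rw [Polynomial.map_mul, eval_mul, hw, mul_zero]
    rw [hcP, Polynomial.map_prod, eval_prod, Finset.prod_eq_zero_iff] at e
    obtain ⟨i, -, hi⟩ := e
    exact h1 n (Q i) (l i) (a i) (hl i).2.2.2.1 (fun j => c0 * x j) (hnear i) w hi

end Pool.Agent.Y67.HB
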